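import Mathlib

/-!
# Jet graphs of diameter-two graphs: no loss of co-chordality after order 2

If `G` is a connected co-chordal graph whose second jet graph is co-chordal, then `G` is complete
multipartite and all its jet graphs are co-chordal. Hence for `n ≥ 2` there is no co-chordal graph
`G` of diameter 2 whose jet graphs of the orders `1, ..., n` are co-chordal while the one of order
`n + 1` is not.
-/

set_option autoImplicit false

namespace Pool.Agent.Results.MP_bdbea1_co.JetsCoChordal

/-- `H` is chordal: every cycle of length `n ≥ 4` (an injective map `c` from `ℤ/n` with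
`c i` adjacent to `c (i + 1)` for all `i`) has a chord, that is, an edge between two vertices
of the cycle that are not consecutive on it. -/
def IsChordal {V : Type} (H : SimpleGraph V) : Prop :=
  ∀ n : ℕ, 4 ≤ n → ∀ c : ZMod n → V, Function.Injective c → (∀ i, H.Adj (c i) (c (i + 1))) →
    ∃ i j, j ≠ i + 1 ∧ i ≠ j + 1 ∧ H.Adj (c i) (c j)

/-- `H` is co-chordal: its complement is chordal. -/
def IsCoChordal {V : Type} (H : SimpleGraph V) : Prop := IsChordal Hᶜ

/-- The graph of `s`-jets of `G`: its vertices are the pairs `(x, a)` with `x` a vertex of `G` and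
`0 ≤ a ≤ s`, and `(x, a)`, `(y, b)` are adjacent exactly when `x`, `y` are adjacent in `G` and
`a + b ≤ s`. -/
def jetGraph {V : Type} (G : SimpleGraph V) (s : ℕ) : SimpleGraph (V × Fin (s + 1)) where
  Adj p q := G.Adj p.1 q.1 ∧ p.2.1 + q.2.1 ≤ s
  symm := ⟨fun _ _ h => ⟨h.1.symm, by rw [add_comm]; exact h.2⟩⟩
  loopless := ⟨fun _ h => G.loopless.irrefl _ h.1⟩

/-- `G` is connected and its diameter is `2`. -/
def HasDiameterTwo {V : Type} (G : SimpleGraph V) : Prop :=
  G.Connected ∧ (∀ x y, G.dist x y ≤ 2) ∧ ∃ x y, G.dist x y = 2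

/-- `G` is complete multipartite: non-adjacency is an equivalence relation. -/
def IsMultipartite {V : Type} (G : SimpleGraph V) : Prop :=
  ∀ x y z, ¬ G.Adj x y → ¬ G.Adj y z → ¬ G.Adj x z

section proof

variable {V : Type} {G : SimpleGraph V}

/-- Two disjoint edges with no edge between them obstruct co-chordality. -/
theorem no_two_edges {W : Type} {H : SimpleGraph W} (h : IsCoChordal H) (p : Fin 4 → W)
    (h02 : H.Adj (p 0) (p 2)) (h13 : H.Adj (p 1) (p 3))
    (n01 : ¬ H.Adj (p 0) (p 1)) (n12 : ¬ H.Adj (p 1) (p 2)) (n23 : ¬ H.Adj (p 2) (p 3))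
    (n30 : ¬ H.Adj (p 3) (p 0)) : False := by
  have d01 : p 0 ≠ p 1 := by
    intro he; rw [he] at h02; exact n12 h02
  have d12 : p 1 ≠ p 2 := by
    intro he; rw [he] at h13; exact n23 h13
  have d23 : p 2 ≠ p 3 := by
    intro he; rw [he] at h02; exact n30 h02.symm
  have d30 : p 3 ≠ p 0 := by
    intro he; rw [he] at h13; exact n01 h13.symm
  have d02 : p 0 ≠ p 2 := h02.ne
  have d13 : p 1 ≠ p 3 := h13.ne
  have hinj : Function.Injective (fun i : ZMod 4 => p i) := by
    intro i j hij
    change p i = p j at hij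
    revert hij
    revert i j
    intro (i : Fin 4) (j : Fin 4) hij
    fin_cases i <;> fin_cases j <;> first | rfl | (exfalso; simp at hij) <;>
      first
      | exact d01 hij | exact d12 hij | exact d23 hij | exact d30 hij | exact d02 hij
      | exact d13 hij | exact d01 hij.symm | exact d12 hij.symm | exact d23 hij.symm
      | exact d30 hij.symm | exact d02 hij.symm | exact d13 hij.symm
  obtain ⟨i, j, h1, h2, h3⟩ := h 4 le_rfl (fun i : ZMod 4 => p i) hinj (by
    intro (i : Fin 4)
    rw [SimpleGraph.compl_adj]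
    fin_cases i
    · exact ⟨d01, n01⟩
    · exact ⟨d12, n12⟩
    · exact ⟨d23, n23⟩
    · exact ⟨d30, n30⟩)
  rw [SimpleGraph.compl_adj] at h3
  revert h3 h2 h1
  revert i j
  intro (i : Fin 4) (j : Fin 4) h1 h2 h3
  fin_cases i <;> fin_cases j
  · exact h3.1 rfl
  · exact h1 rfl
  · exact h3.2 h02
  · exact h2 rfl
  · exact h2 rfl
  · exact h3.1 rfl
  · exact h1 rfl
  · exact h3.2 h13
  · exact h3.2 h02.symm
  · exact h2 rfl
  · exact h3.1 rfl
  · exact h1 rfl
  · exact h1 rfl
  · exact h3.2 h13.symm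
  · exact h2 rfl
  · exact h3.1 rfl

theorem multipartite (hconn : G.Connected) (h0 : IsCoChordal G) (h2 : IsCoChordal (jetGraph G 2)) :
    IsMultipartite G := by
  -- no induced path on four vertices
  have hP4 : ∀ v1 v2 v3 v4 : V, G.Adj v1 v3 → G.Adj v1 v4 → G.Adj v2 v4 → ¬ G.Adj v1 v2 →
      ¬ G.Adj v2 v3 → ¬ G.Adj v3 v4 → False := by
    intro v1 v2 v3 v4 e13 e14 e24 n12 n23 n34
    refine no_two_edges h2 ![(v1, 2), (v2, 0), (v3, 0), (v4, 1)] ?_ ?_ ?_ ?_ ?_ ?_
    · exact ⟨e13, by simp⟩
    · exact ⟨e24, by simp⟩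
    · exact fun h => n12 h.1
    · exact fun h => n23 h.1
    · exact fun h => n34 h.1
    · exact fun h => absurd h.2 (by simp)
  -- no induced paw
  have hpaw : ∀ v1 v2 v3 v4 : V, G.Adj v1 v3 → G.Adj v1 v4 → G.Adj v3 v4 → G.Adj v2 v4 →
      ¬ G.Adj v1 v2 → ¬ G.Adj v2 v3 → False := by
    intro v1 v2 v3 v4 e13 e14 e34 e24 n12 n23
    refine no_two_edges h2 ![(v1, 1), (v2, 0), (v3, 1), (v4, 2)] ?_ ?_ ?_ ?_ ?_ ?_
    · exact ⟨e13, by simp⟩
    · exact ⟨e24, by simp⟩
    · exact fun h => n12 h.1
    · exact fun h => n23 h.1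
    · exact fun h => absurd h.2 (by simp)
    · exact fun h => absurd h.2 (by simp)
  intro x y z nxy nyz exz
  have hyx : y ≠ x := by rintro rfl; exact nyz exz
  obtain ⟨w, hw⟩ : ∃ w, G.Adj y w := by
    have := hconn.preconnected y x
    obtain ⟨p⟩ := this
    cases p with
    | nil => exact absurd rfl hyx
    | cons h _ => exact ⟨_, h⟩
  by_cases hwx : G.Adj w x <;> by_cases hwz : G.Adj w z
  · exact hpaw x y z w exz hwx.symm hwz.symm hw nxy nyz
  · exact hP4 x y z w exz hwx.symm hw nxy nyz fun h => hwz h.symm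
  · exact hP4 z y x w exz.symm hwz.symm hw (fun h => nyz h.symm) (fun h => nxy h.symm)
      fun h => hwx h.symm
  · exact no_two_edges h0 ![x, y, z, w] exz hw nxy nyz (fun h => hwz h.symm) hwx

theorem jets_of_multipartite (hG : IsMultipartite G) (s : ℕ) : IsCoChordal (jetGraph G s) := by
  intro n hn c hinj hc
  by_contra hcon
  push Not at hcon
  have hz : ∀ k : ℕ, 0 < k → k < 4 → (k : ZMod n) ≠ 0 := by
    intro k hk hk4 h
    rw [ZMod.natCast_eq_zero_iff] at h
    exact absurd (Nat.le_of_dvd hk h) (by omega)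
  have h1 : (1 : ZMod n) ≠ 0 := by simpa using hz 1 (by norm_num) (by norm_num)
  have h2 : (2 : ZMod n) ≠ 0 := by simpa using hz 2 (by norm_num) (by norm_num)
  have h3 : (3 : ZMod n) ≠ 0 := by simpa using hz 3 (by norm_num) (by norm_num)
  -- two vertices at distance two on the cycle are adjacent in the jet graph
  have hadj : ∀ i, (jetGraph G s).Adj (c i) (c (i + 2)) := by
    intro i
    by_contra hna
    refine hcon i (i + 2) ?_ ?_ ?_
    · intro h
      apply h1
      have : (2 : ZMod n) = 1 := add_left_cancel h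
      linear_combination this
    · intro h
      apply h3
      linear_combination -h
    · rw [SimpleGraph.compl_adj]
      refine ⟨fun h => h2 ?_, hna⟩
      have := hinj h
      linear_combination -this
  have hnadj : ∀ i, ¬ (jetGraph G s).Adj (c i) (c (i + 1)) := fun i =>
    ((SimpleGraph.compl_adj _ _ _).1 (hc i)).2
  -- two consecutive pairs are not both non-adjacent in `G`
  have hcl1 : ∀ i, G.Adj (c i).1 (c (i + 1)).1 ∨ G.Adj (c (i + 1)).1 (c (i + 2)).1 := by
    intro i
    by_contra h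
    push Not at h
    exact hG _ _ _ h.1 h.2 (hadj i).1
  have hcl2 : ∀ i, ¬ (G.Adj (c i).1 (c (i + 1)).1 ∧ G.Adj (c (i + 2)).1 (c (i + 3)).1) := by
    rintro i ⟨g1, g2⟩
    have b1 : s < (c i).2.1 + (c (i + 1)).2.1 := by
      by_contra h
      exact hnadj i ⟨g1, by omega⟩
    have e3 : i + 2 + 1 = i + 3 := by ring
    have b2 : s < (c (i + 2)).2.1 + (c (i + 3)).2.1 := by
      by_contra h
      apply hnadj (i + 2)
      rw [e3]
      exact ⟨g2, by omega⟩
    have b3 := (hadj i).2
    have b4 := (hadj (i + 1)).2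
    have e4 : i + 1 + 2 = i + 3 := by ring
    rw [e4] at b4
    omega
  have k0 := hcl1 0
  have k1 := hcl1 1
  have k2 := hcl1 2
  have k3 := hcl1 3
  have m0 := hcl2 0
  have m1 := hcl2 1
  have m2 := hcl2 2
  have e1 : (0 : ZMod n) + 1 = 1 := by ring
  have e2 : (0 : ZMod n) + 2 = 2 := by ring
  have e3 : (0 : ZMod n) + 3 = 3 := by ring
  have e4 : (1 : ZMod n) + 1 = 2 := by ring
  have e5 : (1 : ZMod n) + 2 = 3 := by ring
  have e6 : (1 : ZMod n) + 3 = 4 := by ring
  have e7 : (2 : ZMod n) + 1 = 3 := by ring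
  have e8 : (2 : ZMod n) + 2 = 4 := by ring
  have e9 : (2 : ZMod n) + 3 = 5 := by ring
  have e10 : (3 : ZMod n) + 1 = 4 := by ring
  have e11 : (3 : ZMod n) + 2 = 5 := by ring
  rw [e1, e2] at k0
  rw [e4, e5] at k1
  rw [e7, e8] at k2
  rw [e10, e11] at k3
  rw [e1, e2, e3] at m0
  rw [e4, e5, e6] at m1
  rw [e7, e8, e9] at m2
  tauto

end proof

/-- (1) For every `n ≥ 2` there is no co-chordal graph `G` of diameter 2 such that the jet graphs
of the orders `1, ..., n` are co-chordal but the jet graph of order `n + 1` is not.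
(2) More precisely, if `G` is connected and co-chordal and its second jet graph is co-chordal, then
`G` is complete multipartite and all jet graphs of `G` are co-chordal. -/
theorem result :
    (∀ n : ℕ, 2 ≤ n → ¬ ∃ (V : Type) (_ : Finite V) (G : SimpleGraph V), IsCoChordal G ∧
      HasDiameterTwo G ∧ (∀ i, 1 ≤ i → i ≤ n → IsCoChordal (jetGraph G i)) ∧
        ¬ IsCoChordal (jetGraph G (n + 1))) ∧
    (∀ (V : Type) (G : SimpleGraph V), G.Connected → IsCoChordal G →
      IsCoChordal (jetGraph G 2) → IsMultipartite G ∧ ∀ s, IsCoChordal (jetGraph G s)) := by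
  have key : ∀ (V : Type) (G : SimpleGraph V), G.Connected → IsCoChordal G →
      IsCoChordal (jetGraph G 2) → IsMultipartite G ∧ ∀ s, IsCoChordal (jetGraph G s) := by
    intro V G hconn h0 h2
    have := multipartite hconn h0 h2
    exact ⟨this, jets_of_multipartite this⟩
  refine ⟨?_, key⟩
  rintro n hn ⟨V, _, G, h0, hd, h1, h2⟩
  exact h2 ((key V G hd.1 h0 (h1 2 (by norm_num) hn)).2 (n + 1))

end Pool.Agent.Results.MP_bdbea1_co.JetsCoChordal
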